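import Mathlib
import Pool.Agent.Lib.MP_81ecef_ag.Defs
import Pool.Agent.Lib.MP_81ecef_ag.K4.Points

/-! For every `c > -4` there is an irreducible singular complex plane curve with h-constant
below `c`; in particular there is one with h-constant below `-2`. -/

namespace Pool.Agent.Results.MP_81ecef_ag.DownToMinusFour

open Pool.Agent.Lib.MP_81ecef_ag Pool.Agent.Lib.MP_81ecef_ag.K4

theorem result (c : ℝ) (hc : -4 < c) :
    ∃ (F : MvPolynomial (Fin 3) ℂ) (d : ℕ), F.IsHomogeneous d ∧ Irreducible F ∧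
      (Sing F).Finite ∧ (Sing F).Nonempty ∧ hConst F < c := by
  have hε : 0 < c + 4 := by linarith
  obtain ⟨K, hK⟩ := exists_nat_gt (200 / (c + 4))
  rw [div_lt_iff₀ hε] at hK
  obtain ⟨n, D, hn, hD⟩ := exists_side side_nine (2 * K + 5)
  obtain ⟨m, E, hm, hE⟩ := exists_side side_five (2 * K + 5)
  have h1 : 2 * K + 5 < (2 * 4 + 1) ^ (2 * K + 5) := Nat.lt_pow_self (by norm_num)
  have h2 : 2 * K + 5 < (2 * 2 + 1) ^ (2 * K + 5) := Nat.lt_pow_self (by norm_num)
  have hcop : Nat.Coprime (2 * m + 1) (2 * n + 1) := by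
    rw [hn, hm]
    exact Nat.Coprime.pow _ _ (by norm_num)
  refine ⟨Fm D E, _, Fm_hom hD hE, irreducible_Fm hD hE (by omega) hcop,
    curve_bound hD hE (by omega) hcop hc.le ?_⟩
  have hn' : (K : ℝ) + 2 ≤ n := by exact_mod_cast (by omega : K + 2 ≤ n)
  have hm' : (K : ℝ) + 2 ≤ m := by exact_mod_cast (by omega : K + 2 ≤ m)
  have hK0 : (0 : ℝ) ≤ K := Nat.cast_nonneg K
  have a1 : 200 * (n : ℝ) ≤ (c + 4) * (n * (m - 1)) := by
    have : 200 ≤ (c + 4) * ((m : ℝ) - 1) := by nlinarith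
    nlinarith
  have a2 : 200 * ((m : ℝ) - 1) ≤ (c + 4) * (n * (m - 1)) := by
    have : 200 ≤ (c + 4) * (n : ℝ) := by nlinarith
    nlinarith
  nlinarith

end Pool.Agent.Results.MP_81ecef_ag.DownToMinusFour
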